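import Pool.Agent.Run7.h230.QF.MAIN
import Pool.Agent.Run7.h230.QF.TRA
import Pool.Agent.Run7.h230.QF.IDX
import Pool.Agent.Run7.h230.QF.DIR
import Pool.Agent.Run7.h230.QF.DIV
import Pool.Agent.Run7.h230.QF.GATE
import Pool.Agent.Run7.h230.QF.HYP
import Pool.Agent.Run7.h228.QF.BASE
import Pool.Agent.Run7.h228.QF.PROD
import Pool.Agent.Run7.h228.QF.DET
import Pool.Agent.Run7.h354.QF.CP
import Pool.Agent.Run7.h354.QF.KER
import Pool.Agent.Run7.h382.QF.HEL
import Pool.Agent.Run7.h510.QF.COPY
import Pool.Agent.Run7.h590.QF.FAM
import Pool.Agent.Run7.h744.QF.DISP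
import Pool.Agent.Run7.h847.QF.FG
import Pool.Agent.Run7.h937.QF.CNJ
import Pool.Agent.Run7.h937.QF.ELT

/-!
# Flats of maximal rank of a cubulated group without `ℤ²` which diverge in all directions

By helper230 (project QF), with helper228, helper344, helper354, helper382, helper510, helper590,
helper744, helper847 and helper937.

Let `G` act geometrically on a CAT(0) cube complex of any dimension, given by its 1-skeleton `Γ`, a
median graph. A `k`-flat is an isometric embedding of the grid `ℤ ^ k` (with the `ℓ¹`-metric) in `Γ`.
Theorem: if `Γ` (equivalently `G`) is not hyperbolic and `G` has no subgroup `ℤ²` then the maximal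
rank `k` of flats is at least two, and for every `k`-flat `f` and every `R` there are two limit flats
`h₁`, `h₂` of `f` which agree on the cube of radius `R` and diverge at full speed in all directions:
`d(h₁ z, h₂ w) ≥ |z| - C` for all `z`, `w`.

So a counterexample to Q1 contains flats of maximal rank of this kind at all scales; and `G`
contains `ℤ²` if, for some `R`, any two flats of maximal rank which agree on a cube of radius `R` stay
near to each other along some sequence of points which tends to infinity. The flats need not be
convex, and the complex may have a larger dimension than its flats; the starting library contains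
the case of square complexes (where flats are convex and may be required to meet exactly in a
rectangle).

Idea of the proof.

* Walls. If `k` is the maximal rank then for some `N` there are no `k + 1` families of `N` walls,
  each of them separating two points, such that walls of different families cross (otherwise one
  builds isometric boxes of dimension `k + 1` by the Helly property and gates). Walls of a flat which
  cross another one: if two flats agree on a cube of radius `N` then in each direction either only
  finitely many, or all but fewer than `N` walls of the first cross the second, and almost all of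
  them are walls of the same direction of the second. So to be asymptotic in a direction is an open
  and closed condition and a transitive relation.
* Determinism. Suppose that flats of a closed invariant family which agree on a large cube are
  always asymptotic in one direction. Then there are elements of `G` which move almost all walls of
  this direction of a flat along it and fix many walls of the other directions; those without
  translation part move points far up by a bounded amount, so they are finitely many. Hence these
  elements have common powers, for all horizontal positions, and an element which moves the flat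
  horizontally (it exists by the pigeonhole principle) commutes with such a power: `ℤ²`.
* Copies. In a minimal closed family, copies of a pair which separates in the directions of a set
  `D`, put in the first flat of a pair which agrees on a much larger cube and separates in the
  direction `e`, give a pair which separates in all directions of `D` and `e`.
-/

set_option autoImplicit false

namespace Pool.Agent.Results.MP_140312_al.DivergingFlats

open Function

/-- Median graphs: connected graphs in which any three vertices `a`, `b`, `c` have exactly one median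
`m`, a vertex which is on geodesics between any two of them. These are exactly the 1-skeletons of
the CAT(0) cube complexes. -/
def IsMedian {V : Type} (Γ : SimpleGraph V) : Prop :=
  Γ.Connected ∧ ∀ a b c : V, ∃! m : V,
    Γ.dist a m + Γ.dist m b = Γ.dist a b ∧ Γ.dist b m + Γ.dist m c = Γ.dist b c ∧
      Γ.dist a m + Γ.dist m c = Γ.dist a c

/-- Gromov's four point condition: the graph is hyperbolic. -/
def IsHyperbolic {V : Type} (Γ : SimpleGraph V) : Prop := ∃ δ : ℕ, ∀ x y z w : V,
  Γ.dist x z + Γ.dist y w ≤ max (Γ.dist x y + Γ.dist z w) (Γ.dist x w + Γ.dist y z) + δ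

/-- `k`-flats: isometric embeddings of the grid `ℤ ^ k`, with the metric `∑ |z i - w i|`. -/
def IsFlat {V : Type} (Γ : SimpleGraph V) {k : ℕ} (f : (Fin k → ℤ) → V) : Prop :=
  ∀ z w : Fin k → ℤ, (Γ.dist (f z) (f w) : ℤ) = ∑ i, |z i - w i|

/-- The limit flats of `f`: the maps which agree on every finite cube of the grid with one of the
flats `z ↦ g • f (z + b)`, where `g` is in `G` and `b` is in `ℤ ^ k`. -/
def LimitFlats (G : Type) {V : Type} [Group G] [MulAction G V] {k : ℕ} (f : (Fin k → ℤ) → V) :
    Set ((Fin k → ℤ) → V) :=
  {h | ∀ R : ℕ, ∃ (g : G) (b : Fin k → ℤ), ∀ z : Fin k → ℤ, (∀ i, |z i| ≤ (R : ℤ)) →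
    h z = g • f (z + b)}

/-- Let `Γ` be a locally finite median graph, i.e. the 1-skeleton of a locally finite CAT(0) cube
complex. Let `G` act on `Γ` by automorphisms with finite stabilisers and finitely many orbits of
vertices. Suppose that `G` has no subgroup isomorphic to `ℤ²` and that `Γ` is not hyperbolic. Then
there is `k ≥ 2` such that `Γ` contains `k`-flats and no `(k + 1)`-flats, and for every `k`-flat `f` and
every `R` there are `k`-flats `h₁`, `h₂`, which are limit flats of `f` and of each other, such that
`h₁ z = h₂ z` for all `z` in the cube of radius `R` and, for some `C`, `|z| ≤ d(h₁ z, h₂ w) + C` for all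
`z`, `w`, where `|z| = ∑ |z i|`. -/
theorem result {V : Type} {Γ : SimpleGraph V} (hΓ : IsMedian Γ)
    (hfin : ∀ v, (Γ.neighborSet v).Finite) {G : Type} [Group G] [MulAction G V]
    (haut : ∀ (g : G) (a b : V), Γ.Adj a b → Γ.Adj (g • a) (g • b))
    (hstab : ∀ v : V, {g : G | g • v = v}.Finite)
    (horb : ∃ K : Set V, K.Finite ∧ ∀ v : V, ∃ g : G, g • v ∈ K)
    (hZ : ¬ ∃ φ : Multiplicative (ℤ × ℤ) →* G, Injective φ) (hhyp : ¬ IsHyperbolic Γ) :
    ∃ k : ℕ, 2 ≤ k ∧ (∃ f : (Fin k → ℤ) → V, IsFlat Γ f) ∧
      (¬ ∃ f : (Fin (k + 1) → ℤ) → V, IsFlat Γ f) ∧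
      ∀ f : (Fin k → ℤ) → V, IsFlat Γ f → ∀ R : ℕ,
        ∃ h₁ ∈ LimitFlats G f, ∃ h₂ ∈ LimitFlats G f, h₁ ∈ LimitFlats G h₂ ∧
          h₂ ∈ LimitFlats G h₁ ∧ IsFlat Γ h₁ ∧ IsFlat Γ h₂ ∧
          (∀ z : Fin k → ℤ, (∀ i, |z i| ≤ (R : ℤ)) → h₁ z = h₂ z) ∧
          ∃ C : ℤ, ∀ z w : Fin k → ℤ, ∑ i, |z i| ≤ Γ.dist (h₁ z) (h₂ w) + C := by
  have hA : Pool.Agent.Run7.h230.QF.Act G Γ := ⟨⟨hΓ.1, hΓ.2⟩, hfin, haut, hstab, horb⟩
  have hGR := Pool.Agent.Run7.h230.QF.t_GR
  have hIDX := Pool.Agent.Run7.h230.QF.t_IDX
  have hFXG := Pool.Agent.Run7.h230.QF.t_FXG hIDX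
  have hCOF := Pool.Agent.Run7.h230.QF.t_COF hGR
  have hDIR := Pool.Agent.Run7.h230.QF.t_DIR
  have hSYM := Pool.Agent.Run7.h230.QF.t_SYM hDIR
  have hTRA := Pool.Agent.Run7.h230.QF.t_TRA hSYM hCOF hDIR
  have hOPEN := Pool.Agent.Run7.h230.QF.t_OPEN hCOF
  have hCOMM := Pool.Agent.Run7.h230.QF.t_COMM hCOF hDIR
  have hHEL := Pool.Agent.Run7.h382.QF.t_HEL
  have hGATE := Pool.Agent.Run7.h230.QF.t_GATE
  have hBASE := Pool.Agent.Run7.h228.QF.t_BASE hHEL hGATE
  have hPROD := Pool.Agent.Run7.h228.QF.t_PROD hHEL hGATE
  have hDIM := Pool.Agent.Run7.h847.QF.t_DIM hBASE hPROD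
  have hPIG := Run7.h590.QF.t_PIG
  have hRANK := Pool.Agent.Run7.h847.QF.t_RANK Pool.Agent.Run7.h230.QF.t_HYP hDIM hBASE hPROD
    Run7.h590.QF.t_LIM Pool.Agent.Run7.h847.QF.t_FG
  have hMOV := Pool.Agent.Run7.h847.QF.t_MOV hPIG
  have hDISP := Pool.Agent.Run7.h744.QF.t_DISP hGR hIDX
  have hCP := Pool.Agent.Run7.h354.QF.t_CP hFXG hDISP Pool.Agent.Run7.h354.QF.t_KER
  have hELT := Pool.Agent.Run7.h937.QF.t_ELT hPIG hCOMM hIDX
  have hCNJ := Pool.Agent.Run7.h937.QF.t_CNJ hIDX hCOMM
  have hDET := Pool.Agent.Run7.h228.QF.t_DET hELT hMOV hCNJ hCP hFXG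
  have hCOPY := Pool.Agent.Run7.h510.QF.t_COPY Run7.h590.QF.t_REC hOPEN hTRA
  exact Pool.Agent.Run7.h230.QF.t_MAIN hRANK Run7.h590.QF.t_ORB
    Run7.h590.QF.t_MIN hDET hCOPY Pool.Agent.Run7.h230.QF.t_DIV V G Γ hA hZ hhyp

end Pool.Agent.Results.MP_140312_al.DivergingFlats
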