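import Pool.Agent.Run7.h230.QF.NEST
import Pool.Agent.Run7.h230.QF.MAIN
import Pool.Agent.Run7.h230.QF.TRA
import Pool.Agent.Run7.h230.QF.IDX
import Pool.Agent.Run7.h230.QF.DIR
import Pool.Agent.Run7.h230.QF.GATE
import Pool.Agent.Run7.h228.QF.BASE
import Pool.Agent.Run7.h228.QF.PROD
import Pool.Agent.Run7.h228.QF.DET
import Pool.Agent.Run7.h354.QF.CP
import Pool.Agent.Run7.h354.QF.KER
import Pool.Agent.Run7.h382.QF.HEL
import Pool.Agent.Run7.h510.QF.COPY
import Pool.Agent.Run7.h590.QF.FAM
import Pool.Agent.Run7.h744.QF.DISP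
import Pool.Agent.Run7.h847.QF.FG
import Pool.Agent.Run7.h937.QF.CNJ
import Pool.Agent.Run7.h937.QF.ELT
import Pool.Agent.Run7.h299.QF.BXF
import Pool.Agent.Run7.h305.QF.EQV
import Pool.Agent.Run7.h930.QF.EQH

/-!
# Flats of a `k`-dimensional CAT(0) cube complex which meet exactly in a finite box

By helper230 (project QF, phases 1 and 2), with many other helpers.

Let `G` act geometrically on a CAT(0) cube complex of dimension at most `k`, `k ≥ 2`, given by its
1-skeleton `Γ`, a median graph without `(k + 1)`-cubes, and let `f` be a `k`-flat, i.e. an isometric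
embedding of the grid `ℤ ^ k` (with the `ℓ¹`-metric) in `Γ`. Theorem: if `G` has no subgroup `ℤ²` then for
every `R` there are two limit flats of `f` whose intersection is exactly a box with finite sides, which
contains the cube of radius `R`; each of them is also a limit flat of the other one.

The starting library contains the case `k = 2` (square complexes). For flats of maximal rank in
complexes of larger dimension the agreement is no longer exactly a box; for them the file
`DivergingFlats` proves that there are flats which agree on large cubes and diverge at full speed.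

Idea of the proof. The walls of a `k`-flat of the same direction are nested, as otherwise there would be
a `(k + 1)`-cube. Two flats which agree on the cube of radius one agree exactly at the points which are
separated from the origin only by walls which cross both flats; this is a box with possibly infinite
sides. By the theorem of phase 1 there are pairs of limit flats which agree on a given cube and such
that in each of the `2 k` directions only finitely many walls of the first flat cross the second one.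
-/

set_option autoImplicit false

namespace Pool.Agent.Results.MP_140312_al.FiniteBoxes

open Function

/-- Median graphs: connected graphs in which any three vertices `a`, `b`, `c` have exactly one median
`m`, a vertex which is on geodesics between any two of them. These are exactly the 1-skeletons of
the CAT(0) cube complexes. -/
def IsMedian {V : Type} (Γ : SimpleGraph V) : Prop :=
  Γ.Connected ∧ ∀ a b c : V, ∃! m : V,
    Γ.dist a m + Γ.dist m b = Γ.dist a b ∧ Γ.dist b m + Γ.dist m c = Γ.dist b c ∧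
      Γ.dist a m + Γ.dist m c = Γ.dist a c

/-- The graph contains an `m`-cube: an isometric copy of the graph `{0, 1} ^ m`. For the 1-skeleton
of a CAT(0) cube complex this means that the complex has an `m`-dimensional cube. -/
def HasCube {V : Type} (Γ : SimpleGraph V) (m : ℕ) : Prop :=
  ∃ F : (Fin m → Bool) → V, ∀ a b, Γ.dist (F a) (F b) = (Finset.univ.filter fun i => a i ≠ b i).card

/-- `k`-flats: isometric embeddings of the grid `ℤ ^ k`, with the metric `∑ |z i - w i|`. -/
def IsFlat {V : Type} (Γ : SimpleGraph V) {k : ℕ} (f : (Fin k → ℤ) → V) : Prop :=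
  ∀ z w : Fin k → ℤ, (Γ.dist (f z) (f w) : ℤ) = ∑ i, |z i - w i|

/-- The limit flats of `f`: the maps which agree on every finite cube of the grid with one of the
flats `z ↦ g • f (z + b)`, where `g` is in `G` and `b` is in `ℤ ^ k`. -/
def LimitFlats (G : Type) {V : Type} [Group G] [MulAction G V] {k : ℕ} (f : (Fin k → ℤ) → V) :
    Set ((Fin k → ℤ) → V) :=
  {h | ∀ R : ℕ, ∃ (g : G) (b : Fin k → ℤ), ∀ z : Fin k → ℤ, (∀ i, |z i| ≤ (R : ℤ)) →
    h z = g • f (z + b)}

theorem noGrid {V : Type} {Γ : SimpleGraph V} {k : ℕ} (hΓ : Pool.Agent.H97R3.VR.IsMedian Γ)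
    (hdim : ¬ HasCube Γ (k + 1)) : ¬ Pool.Agent.Run7.h230.QF.Grid Γ (k + 1) 1 := by
  intro hG
  have hHEL := Pool.Agent.Run7.h382.QF.t_HEL
  have hGATE := Pool.Agent.Run7.h230.QF.t_GATE
  obtain ⟨x, y, h1, h2⟩ := Pool.Agent.Run7.h228.QF.t_BASE hHEL hGATE V Γ hΓ (k + 1) 1 hG
  obtain ⟨F, hF⟩ := Pool.Agent.Run7.h228.QF.t_PROD hHEL hGATE V Γ hΓ (k + 1) 1 x y h1 h2
  refine hdim ⟨fun a => F fun i => if a i then 1 else 0, fun a b => ?_⟩
  have h := hF (fun i => if a i then 1 else 0) (fun i => if b i then 1 else 0)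
    (fun i => by split_ifs <;> simp) (fun i => by split_ifs <;> simp)
  have h3 : (∑ i, |(((if a i then 1 else 0 : ℕ) : ℤ)) - ((if b i then 1 else 0 : ℕ) : ℤ)|) =
      ((Finset.univ.filter fun i => a i ≠ b i).card : ℤ) := by
    rw [Finset.card_filter]
    push_cast
    refine Finset.sum_congr rfl fun i _ => ?_
    cases a i <;> cases b i <;> simp
  rw [h3] at h
  exact_mod_cast h

/-- Let `Γ` be a locally finite median graph without `(k + 1)`-cubes, i.e. the 1-skeleton of a locally
finite CAT(0) cube complex of dimension at most `k`, where `k ≥ 2`. Let `G` act on `Γ` by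
automorphisms with finite stabilisers and finitely many orbits of vertices, and suppose that `G` has no
subgroup isomorphic to `ℤ²`. Let `f` be a `k`-flat. Then for every `R` there are `k`-flats `h₁`, `h₂`,
which are limit flats of `f` and of each other, and `a`, `b` in `ℤ ^ k` with `a i ≤ -R` and `R ≤ b i`, such
that `h₁ z = h₂ w` if and only if `z = w` and `a i ≤ z i ≤ b i` for all `i`. -/
theorem result {V : Type} {Γ : SimpleGraph V} (hΓ : IsMedian Γ)
    (hfin : ∀ v, (Γ.neighborSet v).Finite) {G : Type} [Group G] [MulAction G V]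
    (haut : ∀ (g : G) (a b : V), Γ.Adj a b → Γ.Adj (g • a) (g • b))
    (hstab : ∀ v : V, {g : G | g • v = v}.Finite)
    (horb : ∃ K : Set V, K.Finite ∧ ∀ v : V, ∃ g : G, g • v ∈ K)
    (hZ : ¬ ∃ φ : Multiplicative (ℤ × ℤ) →* G, Injective φ) {k : ℕ} (hk : 2 ≤ k)
    (hdim : ¬ HasCube Γ (k + 1)) {f : (Fin k → ℤ) → V} (hf : IsFlat Γ f) (R : ℕ) :
    ∃ h₁ ∈ LimitFlats G f, ∃ h₂ ∈ LimitFlats G f, h₁ ∈ LimitFlats G h₂ ∧ h₂ ∈ LimitFlats G h₁ ∧
      IsFlat Γ h₁ ∧ IsFlat Γ h₂ ∧ ∃ a b : Fin k → ℤ, (∀ i, a i ≤ -(R : ℤ) ∧ (R : ℤ) ≤ b i) ∧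
        ∀ z w : Fin k → ℤ, h₁ z = h₂ w ↔ z = w ∧ ∀ i, a i ≤ z i ∧ z i ≤ b i := by
  have hA : Pool.Agent.Run7.h230.QF.Act G Γ := ⟨⟨hΓ.1, hΓ.2⟩, hfin, haut, hstab, horb⟩
  have hG := noGrid (k := k) hA.med hdim
  have hGR := Pool.Agent.Run7.h230.QF.t_GR
  have hIDX := Pool.Agent.Run7.h230.QF.t_IDX
  have hFXG := Pool.Agent.Run7.h230.QF.t_FXG hIDX
  have hCOF := Pool.Agent.Run7.h230.QF.t_COF hGR
  have hDIR := Pool.Agent.Run7.h230.QF.t_DIR
  have hCOMM := Pool.Agent.Run7.h230.QF.t_COMM hCOF hDIR
  have hPIG := Run7.h590.QF.t_PIG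
  have hMOV := Pool.Agent.Run7.h847.QF.t_MOV hPIG
  have hDISP := Pool.Agent.Run7.h744.QF.t_DISP hGR hIDX
  have hCP := Pool.Agent.Run7.h354.QF.t_CP hFXG hDISP Pool.Agent.Run7.h354.QF.t_KER
  have hELT := Pool.Agent.Run7.h937.QF.t_ELT hPIG hCOMM hIDX
  have hCNJ := Pool.Agent.Run7.h937.QF.t_CNJ hIDX hCOMM
  have hDET := Pool.Agent.Run7.h228.QF.t_DET hELT hMOV hCNJ hCP hFXG
  have hSYM := Pool.Agent.Run7.h230.QF.t_SYM hDIR
  have hTRA := Pool.Agent.Run7.h230.QF.t_TRA hSYM hCOF hDIR
  have hOPEN := Pool.Agent.Run7.h230.QF.t_OPEN hCOF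
  have hCOPY := Pool.Agent.Run7.h510.QF.t_COPY Run7.h590.QF.t_REC hOPEN hTRA
  have hEQV := Run7.h305.QF.t_EQV Run7.h930.QF.t_EQH
  exact Pool.Agent.Run7.h299.QF.t_BXF hEQV Run7.h590.QF.t_ORB Run7.h590.QF.t_MIN hDET hCOPY
    V G Γ hA hZ k hk hG f hf R

end Pool.Agent.Results.MP_140312_al.FiniteBoxes
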