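import Pool.Agent.Run7.h230.QF.STRIP3
import Pool.Agent.Run7.h230.QF.GATE
import Pool.Agent.Run7.h230.QF.HYP
import Pool.Agent.Run7.h228.QF.BASE
import Pool.Agent.Run7.h228.QF.PROD
import Pool.Agent.Run7.h382.QF.HEL

/-!
# Hyperplane stabilisers of a cubulated group without `ℤ²` have infinite height modulo cyclic groups

By helper230, with the library QF (helper228, helper382, helper590, helper847).

Let `G` act geometrically on a CAT(0) cube complex of any dimension, given by its 1-skeleton `Γ`, a
median graph. A `k`-flat is an isometric embedding of the grid `ℤ ^ k` (with the `ℓ¹`-metric) in `Γ`.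
Theorem: if `Γ` (equivalently `G`) is not hyperbolic and `G` has no subgroup `ℤ²` then the maximal
rank `k` of flats is at least two, and for every `k`-flat `f` and every direction `i` of `f` there are
half-spaces `A_l` of `f`, one for each direction `l ≠ i`, such that for all `n` and `m` there are
`n + 1` nested translates of each `A_l` (which are half-spaces of `f`, too) such that the common
stabiliser of all these `(k - 1) (n + 1)` half-spaces contains `m + 1` elements of infinite order,
conjugate in `G`, no two of which have a common nontrivial power.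

So the stabiliser of the hyperplane of `A_l` has infinite height, even modulo virtually cyclic
groups. In other words Q1 has a positive answer for all `G` such that, for some `n`, the intersection
of the stabilisers of any `n + 1` nested half-spaces in one orbit is virtually cyclic or finite; more
generally, such that this holds for the intersection of the stabilisers of all members of `k - 1`
families of `n + 1` nested half-spaces, members of different families crossing.

Idea of the proof. By the pigeonhole principle there is an element `h` of `G` which maps a long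
horizontal box of `f` to a box above it. It stabilises the vertical half-spaces of this box, and it
moves a horizontal half-space properly into itself. Also by the pigeonhole principle there are
elements `g_s` of `G` which map a window of `f` to windows at other places inside the box. So the
elements `x_s = g_s⁻¹ h g_s` stabilise the vertical half-spaces of the window. If `x_s ^ p = x_t ^ q`
then `γ = g_t g_s⁻¹` satisfies `γ h ^ p γ⁻¹ = h ^ q`; as `h` is undistorted, `|p| = |q|`, so `γ ^ 2`
commutes with `h ^ p`. As `γ` moves a vertical half-space, which is stabilised by `h`, properly into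
itself, these two elements generate `ℤ²`. In a flat which is not convex half-spaces of one direction
may cross; the bound for the number of pairwise crossing half-spaces of one direction (flats of
maximal rank) gives long nested families.
-/

set_option autoImplicit false

namespace Pool.Agent.Results.MP_140312_al.StripStabilisers

open Function
open scoped Pointwise

/-- Median graphs: connected graphs in which any three vertices `a`, `b`, `c` have exactly one median
`m`, a vertex which is on geodesics between any two of them. These are exactly the 1-skeletons of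
the CAT(0) cube complexes. -/
def IsMedian {V : Type} (Γ : SimpleGraph V) : Prop :=
  Γ.Connected ∧ ∀ a b c : V, ∃! m : V,
    Γ.dist a m + Γ.dist m b = Γ.dist a b ∧ Γ.dist b m + Γ.dist m c = Γ.dist b c ∧
      Γ.dist a m + Γ.dist m c = Γ.dist a c

/-- Gromov's four point condition: the graph is hyperbolic. -/
def IsHyperbolic {V : Type} (Γ : SimpleGraph V) : Prop := ∃ δ : ℕ, ∀ x y z w : V,
  Γ.dist x z + Γ.dist y w ≤ max (Γ.dist x y + Γ.dist z w) (Γ.dist x w + Γ.dist y z) + δ

/-- `k`-flats: isometric embeddings of the grid `ℤ ^ k`, with the metric `∑ |z i - w i|`. -/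
def IsFlat {V : Type} (Γ : SimpleGraph V) {k : ℕ} (f : (Fin k → ℤ) → V) : Prop :=
  ∀ z w : Fin k → ℤ, (Γ.dist (f z) (f w) : ℤ) = ∑ i, |z i - w i|

/-- The half-spaces of a median graph (one of the two sides of a hyperplane of the cube complex): the
vertices which are closer to `a` than to `b`, where `a`, `b` are adjacent. -/
def IsHalfSpace {V : Type} (Γ : SimpleGraph V) (A : Set V) : Prop :=
  ∃ a b : V, Γ.Adj a b ∧ A = {u | Γ.dist u a < Γ.dist u b}

/-- The half-space of the flat `f` in the direction `l` at `j`: the side of the point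
`f (0, …, j + 1, …, 0)` of the hyperplane which crosses the edge between `f (0, …, j, …, 0)` and
`f (0, …, j + 1, …, 0)` (coordinate `l`). -/
def HalfSpaceOf {V : Type} (Γ : SimpleGraph V) {k : ℕ} (f : (Fin k → ℤ) → V) (l : Fin k) (j : ℤ) :
    Set V :=
  {u | Γ.dist u (f (Pi.single l (j + 1))) < Γ.dist u (f (Pi.single l j))}

/-- Two half-spaces cross (equivalently their hyperplanes cross): all four intersections of the
sets and their complements are nonempty. -/
def Crosses {V : Type} (A B : Set V) : Prop :=
  (A ∩ B).Nonempty ∧ (A ∩ Bᶜ).Nonempty ∧ (Aᶜ ∩ B).Nonempty ∧ (Aᶜ ∩ Bᶜ).Nonempty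

/-- Let `Γ` be a locally finite median graph, i.e. the 1-skeleton of a locally finite CAT(0) cube
complex. Let `G` act on `Γ` by automorphisms with finite stabilisers and finitely many orbits of
vertices. Suppose that `G` has no subgroup isomorphic to `ℤ²` and that `Γ` is not hyperbolic. Then
there is `k ≥ 2` such that `Γ` contains `k`-flats and no `(k + 1)`-flats, and for every `k`-flat `f` and
every direction `i` there is `j` in `ℤ ^ k` such that for all `n` and `m`, with
`A_l = HalfSpaceOf Γ f l (j l)`, there are translates `g_{l,a} A_l = HalfSpaceOf Γ f l (c_{l,a})`,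
`l ≠ i`, `0 ≤ a ≤ n`, strictly nested for each `l`, and elements `x_0, …, x_m` of `G` which stabilise
all of them, are conjugate in `G`, move half-spaces `B_s`, which cross all of them, properly into
themselves (so they have infinite order), and no two of which have a common nontrivial power. -/
theorem result {V : Type} {Γ : SimpleGraph V} (hΓ : IsMedian Γ)
    (hfin : ∀ v, (Γ.neighborSet v).Finite) {G : Type} [Group G] [MulAction G V]
    (haut : ∀ (g : G) (a b : V), Γ.Adj a b → Γ.Adj (g • a) (g • b))
    (hstab : ∀ v : V, {g : G | g • v = v}.Finite)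
    (horb : ∃ K : Set V, K.Finite ∧ ∀ v : V, ∃ g : G, g • v ∈ K)
    (hZ : ¬ ∃ φ : Multiplicative (ℤ × ℤ) →* G, Injective φ) (hhyp : ¬ IsHyperbolic Γ) :
    ∃ k : ℕ, 2 ≤ k ∧ (∃ f : (Fin k → ℤ) → V, IsFlat Γ f) ∧
      (¬ ∃ f : (Fin (k + 1) → ℤ) → V, IsFlat Γ f) ∧
      ∀ f : (Fin k → ℤ) → V, IsFlat Γ f → ∀ i : Fin k, ∃ j : Fin k → ℤ, ∀ n m : ℕ,
        ∃ (g : Fin k → Fin (n + 1) → G) (c : Fin k → Fin (n + 1) → ℤ) (x : Fin (m + 1) → G),
          (∀ l, l ≠ i → StrictMono (c l)) ∧
          (∀ l, l ≠ i → ∀ a, g l a • HalfSpaceOf Γ f l (j l) = HalfSpaceOf Γ f l (c l a)) ∧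
          (∀ l, l ≠ i → ∀ a b, a < b → HalfSpaceOf Γ f l (c l b) ⊂ HalfSpaceOf Γ f l (c l a)) ∧
          (∀ s, ∀ l, l ≠ i → ∀ a,
            x s • HalfSpaceOf Γ f l (c l a) = HalfSpaceOf Γ f l (c l a)) ∧
          (∀ s t, IsConj (x s) (x t)) ∧
          (∀ s, ∃ B, IsHalfSpace Γ B ∧ x s • B ⊂ B ∧
            ∀ l, l ≠ i → ∀ a, Crosses B (HalfSpaceOf Γ f l (c l a))) ∧
          ∀ s t, s ≠ t → ∀ p q : ℤ, x s ^ p = x t ^ q → p = 0 ∧ q = 0 := by
  have hA : Pool.Agent.Run7.h230.QF.Act G Γ := ⟨⟨hΓ.1, hΓ.2⟩, hfin, haut, hstab, horb⟩
  have hHEL := Pool.Agent.Run7.h382.QF.t_HEL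
  have hGATE := Pool.Agent.Run7.h230.QF.t_GATE
  have hBASE := Pool.Agent.Run7.h228.QF.t_BASE hHEL hGATE
  have hPROD := Pool.Agent.Run7.h228.QF.t_PROD hHEL hGATE
  have hDIM := Pool.Agent.Run7.h847.QF.t_DIM hBASE hPROD
  obtain ⟨k, hk, h1, h2, N, hN⟩ := Pool.Agent.Run7.h847.QF.t_RANK Pool.Agent.Run7.h230.QF.t_HYP
    hDIM hBASE hPROD Run7.h590.QF.t_LIM Pool.Agent.Run7.h847.QF.t_FG V G Γ hA hhyp
  refine ⟨k, hk, h1, h2, fun f hf i => ?_⟩
  obtain ⟨i', hi'⟩ : ∃ i' : Fin k, i ≠ i' := by
    by_cases h : i = ⟨0, by omega⟩
    · exact ⟨⟨1, by omega⟩, fun h' => by rw [h] at h'; simp at h'⟩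
    · exact ⟨⟨0, by omega⟩, h⟩
  obtain ⟨j, hj⟩ := Pool.Agent.Run7.h230.QF.Strip.final hA hZ hN hf hi'
  exact ⟨j, fun n m => hj n m⟩

end Pool.Agent.Results.MP_140312_al.StripStabilisers
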