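import Pool.Agent.Run7.h230.QF.UNB
import Pool.Agent.Run7.h230.QF.NEST
import Pool.Agent.Run7.h230.QF.WSL
import Pool.Agent.Run7.h230.QF.END
import Pool.Agent.Run7.h230.QF.MAIN
import Pool.Agent.Run7.h230.QF.TRA
import Pool.Agent.Run7.h230.QF.IDX
import Pool.Agent.Run7.h230.QF.DIR
import Pool.Agent.Run7.h230.QF.GATE
import Pool.Agent.Run7.h228.QF.BASE
import Pool.Agent.Run7.h228.QF.PROD
import Pool.Agent.Run7.h228.QF.DET
import Pool.Agent.Run7.h354.QF.CP
import Pool.Agent.Run7.h354.QF.KER
import Pool.Agent.Run7.h382.QF.HEL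
import Pool.Agent.Run7.h590.QF.FAM
import Pool.Agent.Run7.h744.QF.DISP
import Pool.Agent.Run7.h847.QF.FG
import Pool.Agent.Run7.h937.QF.CNJ
import Pool.Agent.Run7.h937.QF.ELT
import Pool.Agent.Run7.h305.QF.CPT
import Pool.Agent.Run7.h305.QF.DEP
import Pool.Agent.Run7.h305.QF.EQV
import Pool.Agent.Run7.h744.QF.SLB
import Pool.Agent.Run7.h744.QF.TYP
import Pool.Agent.Run7.h847.QF.GRP
import Pool.Agent.Run7.h930.QF.EQH
import Pool.Agent.Run7.h930.QF.HOR
import Pool.Agent.Run7.h930.QF.HPP
import Pool.Agent.Run7.h935.QF.STEP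

/-!
# Tubes in flats have superlinear complexity if there is no `ℤ²`

By helper230 (project QF, phases 1 and 2), with many other helpers.

Let `G` act geometrically on a CAT(0) cube complex of dimension at most `k`, `k ≥ 2`, given by its
1-skeleton `Γ`, a median graph without `(k + 1)`-cubes. A `k`-flat is an isometric embedding `f` of the
grid `ℤ ^ k` (with the `ℓ¹`-metric) in `Γ`. The tube of `f` of width `n` and length `m` in the direction
`i` at the point `x` is the restriction of `f` to the points `x + z`, `|z i'| ≤ n` for `i' ≠ i`,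
`0 ≤ z i ≤ m`.

Theorem: if `G` has no subgroup `ℤ²` then for every `k`-flat `f`, every direction `i` and every
sufficiently large fixed width `n` the number of the tubes of `f` of width `n` and length `m` up to the
action of `G` grows faster than any linear function of `m`.

So `G` contains `ℤ²` if for one flat and for arbitrarily large widths the number of tubes is bounded by
a linear function of the length along a sequence of lengths. This is a kind of Morse-Hedlund theorem
for flats; the starting library proves that cubes have at least quadratic complexity, which says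
nothing about tubes of fixed width.

Idea of the proof.

* In dimension `k` two flats which agree on a cube of radius one agree exactly on a box (possibly
  unbounded), whose sides are given by the walls which cross both flats. The determinism theorem of
  phase 1 and compactness give, in a minimal closed invariant family `L` of limit flats, pairs
  `h₁`, `h₂` which agree exactly on the half-space `z i ≤ 0`.
* An element of `G` which fixes a member of `L` on a large cube fixes it pointwise. So the window
  `|z i'| ≤ n`, `- m ≤ z i ≤ 0` of `h₁` has two inequivalent extensions by one step, and the number of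
  the tubes of length `m + 1` is at least the number of the tubes of length `m` plus the number
  `s m` of windows of this kind.
* Suppose that `s` is bounded. Then the half-infinite tubes of the `h₁` have finitely many types. By the
  pigeonhole principle for all types at once an element `t` of `G` translates `h₁` downwards on a
  horizontal slab; and an element `g` translates a half-infinite tube of `h₁` horizontally. The
  commutator of `t` and `g` is in the finite pointwise stabiliser of `h₁`, which is normalised by `t`,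
  so `g` commutes with a power of `t`, and the walls of `h₁` show that they generate `ℤ²`.
-/

set_option autoImplicit false

namespace Pool.Agent.Results.MP_140312_al.TubesSuperlinear

open Function

/-- Median graphs: connected graphs in which any three vertices `a`, `b`, `c` have exactly one median
`m`, a vertex which is on geodesics between any two of them. These are exactly the 1-skeletons of
the CAT(0) cube complexes. -/
def IsMedian {V : Type} (Γ : SimpleGraph V) : Prop :=
  Γ.Connected ∧ ∀ a b c : V, ∃! m : V,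
    Γ.dist a m + Γ.dist m b = Γ.dist a b ∧ Γ.dist b m + Γ.dist m c = Γ.dist b c ∧
      Γ.dist a m + Γ.dist m c = Γ.dist a c

/-- The graph contains an `m`-cube: an isometric copy of the graph `{0, 1} ^ m`. For the 1-skeleton
of a CAT(0) cube complex this means that the complex has an `m`-dimensional cube. -/
def HasCube {V : Type} (Γ : SimpleGraph V) (m : ℕ) : Prop :=
  ∃ F : (Fin m → Bool) → V, ∀ a b, Γ.dist (F a) (F b) = (Finset.univ.filter fun i => a i ≠ b i).card

/-- `k`-flats: isometric embeddings of the grid `ℤ ^ k`, with the metric `∑ |z i - w i|`. -/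
def IsFlat {V : Type} (Γ : SimpleGraph V) {k : ℕ} (f : (Fin k → ℤ) → V) : Prop :=
  ∀ z w : Fin k → ℤ, (Γ.dist (f z) (f w) : ℤ) = ∑ i, |z i - w i|

/-- The tube of width `n` and length `m` in the direction `i`. -/
def Tube {k : ℕ} (i : Fin k) (n m : ℕ) : Set (Fin k → ℤ) :=
  {z | (∀ i', i' ≠ i → |z i'| ≤ (n : ℤ)) ∧ 0 ≤ z i ∧ z i ≤ (m : ℤ)}

theorem noGrid {V : Type} {Γ : SimpleGraph V} {k : ℕ} (hΓ : Pool.Agent.H97R3.VR.IsMedian Γ)
    (hdim : ¬ HasCube Γ (k + 1)) : ¬ Pool.Agent.Run7.h230.QF.Grid Γ (k + 1) 1 := by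
  intro hG
  have hHEL := Pool.Agent.Run7.h382.QF.t_HEL
  have hGATE := Pool.Agent.Run7.h230.QF.t_GATE
  obtain ⟨x, y, h1, h2⟩ := Pool.Agent.Run7.h228.QF.t_BASE hHEL hGATE V Γ hΓ (k + 1) 1 hG
  obtain ⟨F, hF⟩ := Pool.Agent.Run7.h228.QF.t_PROD hHEL hGATE V Γ hΓ (k + 1) 1 x y h1 h2
  refine hdim ⟨fun a => F fun i => if a i then 1 else 0, fun a b => ?_⟩
  have h := hF (fun i => if a i then 1 else 0) (fun i => if b i then 1 else 0)
    (fun i => by split_ifs <;> simp) (fun i => by split_ifs <;> simp)
  have h3 : (∑ i, |(((if a i then 1 else 0 : ℕ) : ℤ)) - ((if b i then 1 else 0 : ℕ) : ℤ)|) =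
      ((Finset.univ.filter fun i => a i ≠ b i).card : ℤ) := by
    rw [Finset.card_filter]
    push_cast
    refine Finset.sum_congr rfl fun i _ => ?_
    cases a i <;> cases b i <;> simp
  rw [h3] at h
  exact_mod_cast h

/-- Let `Γ` be a locally finite median graph without `(k + 1)`-cubes, i.e. the 1-skeleton of a locally
finite CAT(0) cube complex of dimension at most `k`, where `k ≥ 2`. Let `G` act on `Γ` by
automorphisms with finite stabilisers and finitely many orbits of vertices, and suppose that `G` has no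
subgroup isomorphic to `ℤ²`. Let `f` be a `k`-flat. Then there is `n₀` such that for all directions `i`,
all widths `n ≥ n₀` and all `C` there is `m₀` such that for all lengths `m ≥ m₀` there are at least
`C * m` points `x` of `ℤ ^ k` such that the tubes `z ↦ f (x + z)`, `z ∈ Tube i n m`, are pairwise not
equivalent under `G`. -/
theorem result {V : Type} {Γ : SimpleGraph V} (hΓ : IsMedian Γ)
    (hfin : ∀ v, (Γ.neighborSet v).Finite) {G : Type} [Group G] [MulAction G V]
    (haut : ∀ (g : G) (a b : V), Γ.Adj a b → Γ.Adj (g • a) (g • b))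
    (hstab : ∀ v : V, {g : G | g • v = v}.Finite)
    (horb : ∃ K : Set V, K.Finite ∧ ∀ v : V, ∃ g : G, g • v ∈ K)
    (hZ : ¬ ∃ φ : Multiplicative (ℤ × ℤ) →* G, Injective φ) {k : ℕ} (hk : 2 ≤ k)
    (hdim : ¬ HasCube Γ (k + 1)) {f : (Fin k → ℤ) → V} (hf : IsFlat Γ f) :
    ∃ n₀ : ℕ, ∀ (i : Fin k) (n : ℕ), n₀ ≤ n → ∀ C : ℕ, ∃ m₀ : ℕ, ∀ m, m₀ ≤ m →
      ∃ S : Finset (Fin k → ℤ), C * m ≤ S.card ∧ ∀ x ∈ S, ∀ y ∈ S, x ≠ y →
        ¬ ∃ g : G, ∀ z ∈ Tube i n m, g • f (x + z) = f (y + z) := by
  have hA : Pool.Agent.Run7.h230.QF.Act G Γ := ⟨⟨hΓ.1, hΓ.2⟩, hfin, haut, hstab, horb⟩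
  have hG := noGrid (k := k) hA.med hdim
  have hGR := Pool.Agent.Run7.h230.QF.t_GR
  have hIDX := Pool.Agent.Run7.h230.QF.t_IDX
  have hFXG := Pool.Agent.Run7.h230.QF.t_FXG hIDX
  have hCOF := Pool.Agent.Run7.h230.QF.t_COF hGR
  have hDIR := Pool.Agent.Run7.h230.QF.t_DIR
  have hCOMM := Pool.Agent.Run7.h230.QF.t_COMM hCOF hDIR
  have hPIG := Run7.h590.QF.t_PIG
  have hMOV := Pool.Agent.Run7.h847.QF.t_MOV hPIG
  have hDISP := Pool.Agent.Run7.h744.QF.t_DISP hGR hIDX
  have hCP := Pool.Agent.Run7.h354.QF.t_CP hFXG hDISP Pool.Agent.Run7.h354.QF.t_KER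
  have hELT := Pool.Agent.Run7.h937.QF.t_ELT hPIG hCOMM hIDX
  have hCNJ := Pool.Agent.Run7.h937.QF.t_CNJ hIDX hCOMM
  have hDET := Pool.Agent.Run7.h228.QF.t_DET hELT hMOV hCNJ hCP hFXG
  have hNEST := Pool.Agent.Run7.h230.QF.t_NEST
  have hEQV := Run7.h305.QF.t_EQV Run7.h930.QF.t_EQH
  have hHPP := Run7.h930.QF.HPP.t_HPP hEQV Run7.h305.QF.t_CPT
  have hEND := Pool.Agent.Run7.h230.QF.t_END hNEST Pool.Agent.Run7.h847.QF.t_GRP
    Pool.Agent.Run7.h847.QF.t_ZZ (Pool.Agent.Run7.h230.QF.t_WSL hNEST)
  have hUNB := Pool.Agent.Run7.h230.QF.t_UNB hHPP Pool.Agent.Run7.h744.QF.t_TYP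
    Run7.h305.QF.t_DEP Pool.Agent.Run7.h744.QF.t_SLB Run7.h930.QF.t_HOR hEND hDET
  exact Pool.Agent.Run7.h230.QF.t_TUBE hUNB Run7.h935.QF.t_SUP Run7.h935.QF.t_TRF
    Run7.h935.QF.t_FIX Run7.h590.QF.t_ORB Run7.h590.QF.t_MIN V G Γ hA hZ k hk hG f hf

end Pool.Agent.Results.MP_140312_al.TubesSuperlinear
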